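import Pool.Agent.RTN14.Main

/-!
MP_5d4c19_al, answer to a part of Q1.  W is a set of laws, Rel W the free group of countable rank
of the variety V they define, assumed residually torsion-free nilpotent, as in Q1.
-/

set_option autoImplicit false

namespace Pool.Agent.Results.MP_5d4c19_al.DerivedLengthCriterion

open Pool.Agent.RTN14

/-- Let the free group of countable rank of the variety V given by W be residually torsion-free
nilpotent.
(1) An outer commutator word of weight n is a law of V if it is a law of the torsion-free
nilpotent groups of class at most n in V.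
(2) V is soluble of derived length at most d if and only if its torsion-free nilpotent groups
of class at most 2 ^ d are.
(3) If V satisfies a law t ^ k * g with t an outer commutator word of weight n, 0 < k,
and g in the (n + 1)-st term of the lower central series of the free group, then V
satisfies t.
(4) Either V is soluble, or for every d it contains a torsion-free nilpotent group of class at
most 2 ^ d of derived length more than d. -/
theorem result (W : Set (FreeGroup ℕ)) (hres : ResTFN (Rel W)) :
    (∀ t : OC, (∀ (H : Type) [Group H], Sat W H → ∀ y : t.Leaf → H, t.eval y = 1) ↔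
      ∀ (H : Type) [Group H], TF H → (⊤ : Subgroup H).lowerCentralSeries t.weight = ⊥ →
        Sat W H → ∀ y : t.Leaf → H, t.eval y = 1) ∧
    (∀ d : ℕ, (∀ (H : Type) [Group H], Sat W H → derivedSeries H d = ⊥) ↔
      ∀ (H : Type) [Group H], TF H → (⊤ : Subgroup H).lowerCentralSeries (2 ^ d) = ⊥ →
        Sat W H → derivedSeries H d = ⊥) ∧
    (∀ (t : OC) (e : t.Leaf → ℕ) (k : ℕ) (g : FreeGroup ℕ), Function.Injective e → 0 < k →
      g ∈ (⊤ : Subgroup (FreeGroup ℕ)).lowerCentralSeries t.weight →
      t.eval (fun i => FreeGroup.of (e i)) ^ k * g ∈ Verbal W →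
      ∀ (H : Type) [Group H], Sat W H → ∀ y : t.Leaf → H, t.eval y = 1) ∧
    (Group.IsSolvable (Rel W) ∨ ∀ d : ℕ, ∃ (H : Type) (_ : Group H), TF H ∧
      (⊤ : Subgroup H).lowerCentralSeries (2 ^ d) = ⊥ ∧ Sat W H ∧ derivedSeries H d ≠ ⊥) := by
  refine ⟨fun t => ⟨fun h H _ _ _ hS => h H hS, fun h H _ hS => ?_⟩,
    fun d => ⟨fun h H _ _ _ hS => h H hS, fun h H _ hS => ?_⟩, ?_, ?_⟩
  · exact law_transfer t (criterion hres t h) H hS
  · exact derived_transfer d (derived_criterion hres d h) H hS
  · intro t e k g he hk hg hw H _ hS
    exact law_transfer t (leading hres t e he k hk g hg hw) H hS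
  · by_cases h : ∃ d : ℕ, ∀ (H : Type) [Group H], TF H →
        (⊤ : Subgroup H).lowerCentralSeries (2 ^ d) = ⊥ → Sat W H → derivedSeries H d = ⊥
    · obtain ⟨d, h⟩ := h
      exact Or.inl ⟨⟨d, derived_criterion hres d h⟩⟩
    · right
      intro d
      by_contra hd
      apply h
      refine ⟨d, fun H _ h1 h2 h3 => ?_⟩
      by_contra h4
      exact hd ⟨H, inferInstance, h1, h2, h3, h4⟩

end Pool.Agent.Results.MP_5d4c19_al.DerivedLengthCriterion
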