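import Pool.Agent.RTQ14.Main

/-!
MP_5d4c19_al, answer to a part of Q1.  W is a set of laws, Rel W the free group of countable rank
of the variety V they define, assumed residually torsion-free nilpotent, as in Q1.
-/

set_option autoImplicit false

namespace Pool.Agent.Results.MP_5d4c19_al.SmallClassTrichotomy

open Pool.Agent.RTN14

/-- Let the free group of countable rank of the variety V given by W be residually torsion-free
nilpotent. Then V is nilpotent of class at most 4, or V is metabelian, or every law of V has a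
power in the fifth term of the lower central series of the free group and V contains all
torsion-free nilpotent groups of class at most 4. In particular Q1 has a positive answer for every
V that omits some torsion-free nilpotent group of class at most 4. -/
theorem result (W : Set (FreeGroup ℕ)) (hres : ResTFN (Rel W)) :
    ((∀ (H : Type) [Group H], Sat W H → (⊤ : Subgroup H).lowerCentralSeries 4 = ⊥) ∨
     (∀ (H : Type) [Group H], Sat W H → derivedSeries H 2 = ⊥) ∨
     ((∀ w ∈ Verbal W, ∃ k : ℕ, 0 < k ∧
        w ^ k ∈ (⊤ : Subgroup (FreeGroup ℕ)).lowerCentralSeries 4) ∧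
      ∀ (H : Type) [Group H], TF H → (⊤ : Subgroup H).lowerCentralSeries 4 = ⊥ → Sat W H)) ∧
    ((∃ (H : Type) (_ : Group H), TF H ∧ (⊤ : Subgroup H).lowerCentralSeries 4 = ⊥ ∧
      ¬ Sat W H) → Group.IsSolvable (Rel W)) := by
  have key : (∀ (H : Type) [Group H], Sat W H → (⊤ : Subgroup H).lowerCentralSeries 4 = ⊥) ∨
     (∀ (H : Type) [Group H], Sat W H → derivedSeries H 2 = ⊥) ∨
     ((∀ w ∈ Verbal W, ∃ k : ℕ, 0 < k ∧
        w ^ k ∈ (⊤ : Subgroup (FreeGroup ℕ)).lowerCentralSeries 4) ∧
      ∀ (H : Type) [Group H], TF H → (⊤ : Subgroup H).lowerCentralSeries 4 = ⊥ → Sat W H) := by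
    rcases RTQ14.trichotomy hres with h | h | h
    · exact Or.inl h
    · exact Or.inr (Or.inl h)
    · exact Or.inr (Or.inr ⟨h, fun H _ h1 h2 => RTQ14.sat_of_pow h H h1 h2⟩)
  refine ⟨key, ?_⟩
  rintro ⟨H, _, h1, h2, h3⟩
  rcases key with h | h | ⟨_, h⟩
  · exact RTQ14.solvable_of (Or.inl h)
  · exact RTQ14.solvable_of (Or.inr h)
  · exact absurd (h H h1 h2) h3

end Pool.Agent.Results.MP_5d4c19_al.SmallClassTrichotomy
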